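import Pool.Agent.H28.Grow.Meas

/-! Growth of balls: the bound `μ (S ^ ⌈(1+ε) n⌉) ≤ K μ (S ^ n)` at one large scale `n` does not
bound `μ (S ^ (3 n)) / μ (S ^ n)`, already for `K = 289` and `ε = 1/49`. -/

set_option autoImplicit false

open MeasureTheory
open scoped Pointwise

namespace Pool.Agent.Results.MP_5a2001_al.PlateauCounterexample

/-- For all `n₀` and `C` there are a finite group `G` with the discrete topology and the counting
measure `μ` (a Haar measure), a symmetric set `S` containing `1` and `n₀ ≤ n` with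
`μ (S ^ ⌈(1 + 1/49) n⌉) ≤ 289 μ (S ^ n)` and `C μ (S ^ n) < μ (S ^ (3 n))`. -/
theorem result (n₀ : ℕ) (C : ℝ) :
    ∃ (G : Type) (_ : Group G) (_ : TopologicalSpace G) (_ : IsTopologicalGroup G)
      (_ : T2Space G) (_ : LocallyCompactSpace G) (_ : MeasurableSpace G) (_ : BorelSpace G)
      (μ : Measure G) (_ : μ.IsHaarMeasure) (_ : μ.Regular) (S : Set G) (n : ℕ),
      Finite G ∧ DiscreteTopology G ∧ μ = Measure.count ∧
      IsOpen S ∧ IsCompact (closure S) ∧ S⁻¹ = S ∧ (1 : G) ∈ S ∧ n₀ ≤ n ∧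
      μ (S ^ ⌈(1 + (1 / 49 : ℝ)) * n⌉₊) ≤ ENNReal.ofReal 289 * μ (S ^ n) ∧
      ENNReal.ofReal C * μ (S ^ n) < μ (S ^ (3 * n)) :=
  Pool.Agent.H28.Grow.main_measure n₀ C

end Pool.Agent.Results.MP_5a2001_al.PlateauCounterexample
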