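import Pool.Agent.H98.Growth.Main

/-! Growth of balls: from the radius `(1+ε) n` to the radius `3 n` in the region `K (1 - 2 ε) < 1`. -/

set_option autoImplicit false

open MeasureTheory
open scoped Pointwise

namespace Pool.Agent.Results.MP_5a2001_al.PlateauRegion

universe v

/-- If `K (1 - 2 ε) < 1` (for instance any `K` when `1/2 ≤ ε`), then
`μ (S ^ ⌈(1+ε) n⌉) ≤ K μ (S ^ n)` implies `μ (S ^ (3n)) ≤ C μ (S ^ n)` for `n₀ ≤ n`, with `n₀` and
`C` depending on `K` and `ε` only. -/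
theorem result (K ε : ℝ) (hK : 1 ≤ K) (hε : 0 < ε) (hKε : K * (1 - 2 * ε) < 1) :
    ∃ (n₀ : ℕ) (C : ℝ), ∀ (G : Type v) [Group G] [TopologicalSpace G] [IsTopologicalGroup G]
      [LocallyCompactSpace G] [MeasurableSpace G] [BorelSpace G] (μ : Measure G)
      [μ.IsHaarMeasure] [μ.InnerRegularCompactLTTop] (S : Set G), IsOpen S →
      IsCompact (closure S) → S⁻¹ = S → (1 : G) ∈ S → ∀ n : ℕ, n₀ ≤ n →
      μ (S ^ ⌈(1 + ε) * n⌉₊) ≤ ENNReal.ofReal K * μ (S ^ n) →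
      μ (S ^ (3 * n)) ≤ ENNReal.ofReal C * μ (S ^ n) :=
  Pool.Agent.H98.Growth.main K ε hK hε hKε

end Pool.Agent.Results.MP_5a2001_al.PlateauRegion
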